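import Pool.Agent.H14.PNF.Base
import Pool.Agent.H14.NF.RECAN
import Pool.Agent.H14.T1.RECI
import Pool.Agent.H25.NF.ISO2
import Pool.Agent.H25.NF.LSR
import Pool.Agent.H46.NF.L
import Pool.Agent.H72.PRK.Chg
import Pool.Agent.H72.PRK.S2
import Pool.Agent.H90.NF.CMP2

/-!
# PNF, row RECQN: the number of the primes of type `(1, 1)` is even
-/

set_option autoImplicit false

namespace Pool.PNF

open Polynomial Matrix NumberField IsDedekindDomain Pool.HYP Pool.TOW Pool.AVS Pool.T1 Pool.NF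
  Pool.PRK

/-- **RECQN.** -/
theorem recqn (hRCPN : RCPNStmt) (hCMP : CMPNStmt) (hTKL : TKLKStmt) (K : Type) [Field K]
    [NumberField K] : ∃ Ram : Finset (HeightOneSpectrum (𝓞 K)), RecQN (K := K) Ram := by
  obtain ⟨Ram, hRam⟩ := hRCPN K
  refine ⟨Ram, ?_⟩
  intro D Y hD hY hRT f hf ϖ hϖ α x hα hdy hx
  have hfm : f.Monic := hf.1
  have hfn : f.natDegree = 2 * 1 + 1 := hf.2.1
  have h2 : ∀ P ∈ D.T, (2 : 𝓞 K) ∉ P.asIdeal := fun P hP h3 =>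
    Finset.disjoint_left.1 hD.1 hP (hD.2.2.2 P (Or.inl h3))
  have hex : ∀ P : HeightOneSpectrum (𝓞 K), ∃ (L : Type) (_ : Field L)
      (O' : ValuationSubring L) (ι : K →+* L), P ∈ D.T → CompP P (ϖ P) L O' ι := by
    intro P
    by_cases hP : P ∈ D.T
    · obtain ⟨ϖ₀, L, hL, O', ι, h3, h4, hC⟩ := hCMP K P (h2 P hP)
      exact ⟨L, hL, O', ι, fun _ => compP_chg hC (hϖ P hP).1 (hϖ P hP).2⟩
    · exact ⟨K, inferInstance, ⊤, RingHom.id K, fun h => absurd h hP⟩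
  choose L hL O' ι hC using hex
  have hk : ∀ P : HeightOneSpectrum (𝓞 K), ∃ (c' : O' P) (γ' : (O' P)[X]), P ∈ D.T →
      OkL (O' P) 1 γ' ∧ (fk K f).map (ι P) = oL (O' P) ((X - C c') * γ') ∧
      TyL (O' P) (ι P (algebraMap (𝓞 K) K (ϖ P))) c' γ' (x P) (α.map (ι P)) := by
    intro P
    by_cases hP : P ∈ D.T
    · obtain ⟨c', γ', h5, h6, h7⟩ := hTKL (𝓞 K) K P (ϖ P) (L P) (O' P) (ι P) (hC P hP) 1
        (D.c P) (D.γ P) f le_rfl (hD.2.1 P hP) hfm hfn (hf.2.2.2.1 P hP)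
      exact ⟨c', γ', fun _ => ⟨h5, h6, (h7 α hα.1 hα.2.1 (x P)).1 (hx P hP)⟩⟩
    · exact ⟨0, 0, fun h5 => absurd h5 hP⟩
  choose c' γ' hcγ using hk
  exact RECANaux.one_class usg (lsq lsa) qsl qskF vqb cmp2 Iso25.iso2 lsr hRam hD hY hRT hf hC
    (fun P hP => ⟨(hcγ P hP).1, (hcγ P hP).2.1⟩) hα.1 hα.2.1 hα.2.2 hdy
    (fun P hP => (hcγ P hP).2.2)

end Pool.PNF
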