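import Pool.Agent.H14.PNF.MANN
import Pool.Agent.H14.PNF.RECQN
import Pool.Agent.H29.NF.All
import Pool.Agent.H79.PRK.All
import Pool.Agent.H17.PNF.IDX
import Pool.Agent.H17.PNF.KNL
import Pool.Agent.H17.PNF.KPI
import Pool.Agent.H17.PNF.TSU
import Pool.Agent.H17.PNF.UNK
import Pool.Agent.H2.PNF.DYA
import Pool.Agent.H2.PNF.DYI
import Pool.Agent.H2.PNF.IR3
import Pool.Agent.H25.PNF.MLGN
import Pool.Agent.H28.PNF.L2CN
import Pool.Agent.H28.PNF.SLN
import Pool.Agent.H3.PNF.DNZN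
import Pool.Agent.H3.PNF.P6N
import Pool.Agent.H31.PN.RPL
import Pool.Agent.H38.PNF.CPLN
import Pool.Agent.H38.PNF.TAKN
import Pool.Agent.H41.PNF.YPR
import Pool.Agent.H41.PNF.YTR
import Pool.Agent.H42.PNF.KEYYN
import Pool.Agent.H45.PNF.SQC
import Pool.Agent.H50.PNF.YAV
import Pool.Agent.H50.PNF.YCNT
import Pool.Agent.H50.PNF.YCO
import Pool.Agent.H51.PNF.YLS
import Pool.Agent.H53.PNF.Ext2
import Pool.Agent.H53.PNF.NSC
import Pool.Agent.H53.PNF.SHAN
import Pool.Agent.H66.PNF.DEZN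
import Pool.Agent.H66.PNF.FIPN
import Pool.Agent.H66.PNF.FZ
import Pool.Agent.H66.PNF.LAWN
import Pool.Agent.H70.PNF.GDFN
import Pool.Agent.H72.PNF.SELN
import Pool.Agent.H78.PNF.SQN
import Pool.Agent.H8.PNF.LSC
import Pool.Agent.H8.PNF.TRC
import Pool.Agent.H80.PNF.EXZN
import Pool.Agent.H80.PNF.FINZN
import Pool.Agent.H80.PNF.YAUX
import Pool.Agent.H80.PNF.ZINN
import Pool.Agent.H85.PN.ABFU
import Pool.Agent.H85.PN.CGU
import Pool.Agent.H85.PN.UNS
import Pool.Agent.H85.PNF.DYK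
import Pool.Agent.H85.PNF.PR2
import Pool.Agent.H85.PNF.RC2N
import Pool.Agent.H90.PNF.YPM
import Pool.Agent.H94.PNF.IRDN

/-!
# PNF: assembly
-/

set_option autoImplicit false

namespace Pool.PNF.All

open Polynomial NumberField IsDedekindDomain Pool.T1 Pool.NF Pool.PRK Pool.PRN

/-! ### Types and Selmer groups -/

theorem p_takn : TAKNStmt := takn tklk cmpn inok
theorem p_irdn : IRDNStmt := irdn Pool.PRK.All.r_irlk inok
theorem p_seln : SELNStmt :=
  seln cpln p_irdn Pool.PRK.All.r_lu2k Pool.PRK.All.r_lt2k p_takn tklk cmpn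
    Pool.T1.All.h_lda Pool.T1.All.h_ldb irun l2t (l2cn sqd)
theorem p_mlgn : MLGNStmt :=
  mlgn p_takn sgk p_seln sln (l2m irl2 mul) (l2d irl2 iso)
theorem p_recqn (K : Type) [Field K] [NumberField K] :
    ∃ Ram : Finset (HeightOneSpectrum (𝓞 K)), RecQN (K := K) Ram :=
  recqn Pool.NF.All.h_rcpn cmpn tklk K

/-! ### The number of the classes -/

theorem p_sqn : SQNStmt := sqn sqc
theorem p_nsc : NSCStmt := nsc p_sqn ext3 ir3
theorem p_lsc : LSCStmt := lsc ir3 tsu kpi knl idx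
theorem p_dyi : DYIStmt := dyi p_nsc p_lsc mul
theorem p_dyk : DYKStmt := dyk cmp2 dya p_dyi pr2 trc
theorem p_cgn (K : Type) [Field K] [NumberField K] : CgN K :=
  cgna (rc2n p_dyk)
    (fun K _ _ => cgu gctk nclk abfu deda dedb dedk qprk Pool.NF.H19.irrn (uns unk rpl) K) K

/-! ### The first moment -/

theorem p_keyyn : KEYYNStmt := keyyn Pool.PRK.All.r_laty Pool.NF.All.h_infn mkn ebn nrm

theorem p_avn (K : Type) [Field K] [NumberField K] (T' : Finset (HeightOneSpectrum (𝓞 K))) :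
    ∃ (C : ℝ) (b : ℕ), AvN K T' C b := by
  have hkey := p_keyyn K (Pool.NF.H19.irrn K)
  obtain ⟨B, -, hB⟩ := hkey
  obtain ⟨c, -, hc⟩ := Pool.NF.All.h_famln K
  exact yav yls
    (ycnt (npt bxu) (nuu bxu bxl) (nad nrm) nro nsu nfi yls ytr yco
      (fun K _ _ => ypm bxu ypr ctxy Pool.PRK.All.r_fbk p3k K))
    K (yaux bxl nrm K) ⟨B, hB⟩ ⟨c, hc⟩ (Pool.NF.H19.irrn K) T'

/-! ### The main theorem -/

/-- The law of Poonen and Rains up to `ε` over every number field. -/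
theorem p_law (K : Type) [Field K] [NumberField K] : LawNF K := by
  obtain ⟨Ram, hRam⟩ := p_recqn K
  obtain ⟨c, -, hc⟩ := Pool.NF.All.h_famln K
  exact mann lawn gdfn fipn dnzn zinn dezn fazn shan exzn p6n finzn sln Pool.NF.H19.irrn twfn
    alln twsn K (Pool.NF.All.h_denn K) ⟨c, hc⟩ ⟨Ram, p_mlgn K Ram hRam (p_cgn K)⟩ (p_avn K)

end Pool.PNF.All
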