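import Pool.Agent.H41.PNF.Cnt
import Pool.Agent.H79.PRK.Defs
import Pool.Agent.H14.NF.Base

/-!
# PNF: the Poonen-Rains law for elliptic curves over number fields: definitions

`K` is a number field.  The family `FamN D Y` is that of NF, the types `TyK` and the local conditions
`LocS` are those of PRK with `R = 𝓞 K`, `g = 1`; the patterns `PatN`, KEY (`KeyYN`) and the first
moment (`AvN`) are in `H41/PNF/Cnt.lean`.
-/

set_option autoImplicit false

namespace Pool.PNF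

open Polynomial Matrix NumberField IsDedekindDomain Pool.HYP Pool.TOW Pool.AVS Pool.T1 Pool.NF
  Pool.PRK

section Sel

variable {K : Type} [Field K]

/-- The 2-Selmer group over the number field `K` of the Jacobian of `y² = f(x)`, `f` of odd degree:
the classes modulo squares of the units of `K[x]/(f)` whose norm is a square and which are, over
every completion of `K`, classes of divisors.  (Over the complex numbers this is no condition.) -/
def SelN (f : K[X]) : Set ((AdjoinRoot f)ˣ ⧸ SqG f) :=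
  {ξ | ∃ (u : (AdjoinRoot f)ˣ) (p : K[X]), (QuotientGroup.mk u : (AdjoinRoot f)ˣ ⧸ SqG f) = ξ ∧
    AdjoinRoot.mk f p = (u : AdjoinRoot f) ∧ NSq f p ∧
    (∀ (L : Type) [Field L] (O : ValuationSubring L) (ι : K →+* L), Cpl K L O ι →
      LocSol (f.map ι) (p.map ι)) ∧
    ∀ σ : K →+* ℝ, LocSol (f.map σ) (p.map σ)}

end Sel

section Defs

variable {K : Type} [Field K] [NumberField K]

/-- The smooth elements of the family. -/
def FamSN (D : DatN K) (Y : ℕ) : Set (𝓞 K)[X] := {f | f ∈ FamN D Y ∧ Smooth f}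

/-- The classes of square norm which are classes of units outside `T` and classes of divisors over
the completions above `2`. -/
def RcL (T : Finset (HeightOneSpectrum (𝓞 K))) (f : (𝓞 K)[X]) :
    Set ((AdjoinRoot (fk K f))ˣ ⧸ SqG (fk K f)) :=
  {ξ | ∃ (u : (AdjoinRoot (fk K f))ˣ) (α : K[X]),
    (QuotientGroup.mk u : (AdjoinRoot (fk K f))ˣ ⧸ SqG (fk K f)) = ξ ∧
    AdjoinRoot.mk (fk K f) α = (u : AdjoinRoot (fk K f)) ∧ UOut T f α ∧ Loc2 f α}

/-- Reciprocity, if the primes of `Ram` are in `T'`: the number of primes with type `(1, 1)` is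
even. -/
def RecQN (Ram : Finset (HeightOneSpectrum (𝓞 K))) : Prop :=
  ∀ (D : DatN K) (Y : ℕ), D.Ok → 1 ≤ Y → Ram ⊆ D.T' → ∀ f ∈ FamN D Y,
    ∀ ϖ : HeightOneSpectrum (𝓞 K) → 𝓞 K, Uni D.T ϖ →
    ∀ (α : K[X]) (x : HeightOneSpectrum (𝓞 K) → Ty), UOut D.T f α → Dya f α →
    (∀ P ∈ D.T, TyK P.asIdeal (ϖ P) (D.c P) (D.γ P) f (x P) α) →
    ∑ P ∈ D.T, (x P).1 * (x P).2 = 0

variable (K)

/-- The number of the classes is at least `2^#T`. -/
def CgN : Prop :=
  ∀ (D : DatN K) (Y : ℕ), D.Ok → 1 ≤ Y → ∀ f ∈ FamSN D Y, (RcG K D.T f).Finite →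
    2 ^ D.T.card ≤ (RcL D.T f).ncard

variable {K}

open Classical in
/-- The group of the types of the classes, and the Selmer groups of the twists. -/
def MlgN (Ram : Finset (HeightOneSpectrum (𝓞 K))) : Prop :=
  ∀ (D : DatN K) (Y : ℕ), D.Ok → 1 ≤ Y → Ram ⊆ D.T' → ∀ f ∈ FamSN D Y,
    ∀ ϖ : HeightOneSpectrum (𝓞 K) → 𝓞 K, Uni D.T ϖ → ¬ PatN D ϖ (fun _ => 0) f →
    ∃ M : AddSubgroup ({P : HeightOneSpectrum (𝓞 K) // P ∈ D.T} → Ty),
      (∀ m ∈ M, PRL.qf m = 0) ∧ Nat.card M = 2 ^ D.T.card ∧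
      (∀ m ∈ M, m ≠ 0 → PatN D ϖ (ex D.T m) f) ∧
      ∀ S ⊆ D.T, ∀ d : 𝓞 K, TwiN D.T D.T' S d →
        (SelN (fk K (f.scaleRoots d))).Finite ∧
        (SelN (fk K (f.scaleRoots d))).ncard = {m | m ∈ M ∧ m ∈ PRL.LS (sb D.T S)}.ncard

/-- The elements `dS S` may be used for the twists. -/
def TwsN (D : DatN K) (dS : Finset (HeightOneSpectrum (𝓞 K)) → 𝓞 K) : Prop :=
  ∀ S ⊆ D.T, TwiN D.T D.T' S (dS S)

end Defs

/-- KEYYN: the pair of matrices (as KEYN of NF, `H90/NF/KEYN`, and KEYY of PRK, with LATY of PRK,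
INFN, MKN, EBN, NRM of NF; `S = a (Eᵀ gr1 E)`; for `P ∈ T` the determinant of `G` is not in `P` by
NRM; `G 0 0 = S 0 0 = 0` gives a trivial class). -/
def KEYYNStmt : Prop :=
  ∀ (K : Type) [Field K] [NumberField K],
    (∀ (D : DatN K) (Y : ℕ), D.Ok → ∀ f ∈ FamN D Y, Irreducible (fk K f)) →
    ∃ B : ℝ, 1 ≤ B ∧ ∀ B' : ℝ, B ≤ B' → KeyYN K B'

end Pool.PNF
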