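import Pool.Agent.H14.PNF.S6
import Pool.Agent.H32.PRL.SLC
import Pool.Agent.H32.PRL.FLP
import Pool.Agent.H77.PRL.BLC
import Pool.Agent.H25.PRL.IDN

/-!
# PNF, row MANN: the main statement from its parts
-/

set_option autoImplicit false
set_option linter.unusedSectionVars false

namespace Pool.PNF

open Polynomial Matrix NumberField IsDedekindDomain Pool.HYP Pool.TOW Pool.AVS Pool.T1 Pool.NF
  Pool.PRK

section Mon

variable {K : Type} [Field K] [NumberField K]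

theorem lawTN_mono {ε ε' : ℝ} (h : ε ≤ ε') {D : DatN K}
    {dS : Finset (HeightOneSpectrum (𝓞 K)) → 𝓞 K} {f : (𝓞 K)[X]} (hf : LawTN ε D dS f) :
    LawTN ε' D dS f := ⟨hf.1, hf.2.1, fun B => (hf.2.2 B).trans h⟩

theorem fkN_inj : Function.Injective fun f : (𝓞 K)[X] => fk K f :=
  map_injective _ (FaithfulSMul.algebraMap_injective (𝓞 K) K)

theorem sl_nonempty (T : Finset (HeightOneSpectrum (𝓞 K))) : (Sl T).Nonempty := by
  obtain ⟨S, hS1, hS2⟩ := Finset.exists_subset_card_eq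
    (show T.card / 2 ≤ T.card from Nat.div_le_self _ _)
  exact ⟨S, Finset.mem_filter.2 ⟨Finset.mem_powerset.2 hS1, Or.inl hS2⟩⟩

theorem nm_pos (P : HeightOneSpectrum (𝓞 K)) : 0 < Nm P := by
  have : Finite (𝓞 K ⧸ P.asIdeal) := Ideal.finiteQuotientOfFreeOfNeBot P.asIdeal P.ne_bot
  exact Nat.card_pos

end Mon

open Classical in
/-- **MANN.** -/
theorem mann : MANNStmt := by
  intro hLAW hGDF hFIP hDNZ hZIN hDEZ hFAZ hSHA hEXZ hP6 hFIN hSLN hIRR hTWF hALL hTWS K _ _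
    hden hfam hmlg hav
  obtain ⟨A0, hden⟩ := hden
  obtain ⟨Ram, hmlg⟩ := hmlg
  obtain ⟨B, hB⟩ := hTWS K
  obtain ⟨A1, hA1⟩ := hDEZ K
  obtain ⟨cz, hcz, hFZ⟩ := hFAZ K
  obtain ⟨cA, CA, hcA, hCA, hAll⟩ := hALL K
  refine ⟨A0 ∪ (Ram ∪ (B ∪ (A1 ∪ (hP6 K).toFinset))), fun T' hT' ε hε => ?_⟩
  obtain ⟨C, b0, hC⟩ := hav T'
  have hA0 : A0 ⊆ T' := fun x hx => hT' (by simp [hx])
  have hRam : Ram ⊆ T' := fun x hx => hT' (by simp [hx])
  have hBT : B ⊆ T' := fun x hx => hT' (by simp [hx])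
  have hA1T : A1 ⊆ T' := fun x hx => hT' (by simp [hx])
  have h6T : ∀ P : HeightOneSpectrum (𝓞 K), (2 : 𝓞 K) ∈ P.asIdeal ∨ (3 : 𝓞 K) ∈ P.asIdeal →
      P ∈ T' := by
    intro P hP
    apply hT'
    rw [Finset.mem_union, Finset.mem_union, Finset.mem_union, Finset.mem_union,
      Set.Finite.mem_toFinset]
    exact Or.inr (Or.inr (Or.inr (Or.inr hP)))
  set ε₁ : ℝ := min (ε / 3) (ε / 3 / (2 * cz)) with hε₁def
  have hε₁ : 0 < ε₁ := lt_min (by positivity) (by positivity)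
  have hε₁3 : ε₁ ≤ ε / 3 := min_le_left _ _
  have hε₁c : ε₁ * (2 * cz) ≤ ε / 3 := by
    rw [← le_div_iff₀ (by positivity)]
    exact min_le_right _ _
  obtain ⟨k1, hk1⟩ := hLAW hGDF PRL.blc PRL.slc PRL.par K T' A0 Ram C b0 hC hfam hden hA0
    hmlg hRam ε₁ hε₁
  refine ⟨2 * k1 + 1, fun k hk hk' => ⟨b0 + 6 * k, ?_, ?_⟩⟩
  · exact hEXZ K T' h6T k (b0 + 6 * k)
  intro D hD hDT hcard hb
  obtain ⟨j, hj⟩ := hk
  have hb' : ∀ P ∈ D.T, b0 < Nm P ∧ 6 * D.T.card ≤ Nm P := by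
    intro P hP
    have := hb P hP
    rw [hcard]
    constructor <;> omega
  refine ⟨?_, fun dS hdS E hE1 hE => ?_⟩
  · obtain ⟨E, -, hE⟩ := hB D.T' (by rw [hDT]; exact hBT)
      (fun P hP => by rw [hDT]; exact h6T P (Or.inl hP)) D.T hD.1
    choose! dS hdS using hE
    exact ⟨dS, fun S hS => (hdS S hS).2⟩
  obtain ⟨c, hc, Y1, hY1⟩ := hDNZ hZIN hTWF hALL K A0 D hfam hden (by rw [hDT]; exact hA0) hD dS
    hdS E hE1 hE
  obtain ⟨Y2, hY2⟩ := hk1 D j hD hDT (hcard.trans hj) (by omega) hb' dS hdS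
  have hodd : Odd D.T.card := ⟨j, hcard.trans hj⟩
  have hSl : 0 < (Sl D.T).card := Finset.card_pos.2 (sl_nonempty _)
  -- the general step
  have hstep : ∀ (Y : ℕ) (A : Set (𝓞 K)[X]) (Hs : Set K[X]) (c' : ℝ), 1 ≤ Y → A ⊆ FamN D Y →
      A.Finite → A.Nonempty →
      ({f | f ∈ A ∧ ¬ LawTN (ε / 3) D dS f}.ncard : ℝ) ≤ ε / 3 * A.ncard →
      Hs.Finite → ZAN D dS A ⊆ Hs → c' * Hs.ncard ≤ (ZAN D dS A).ncard →
      PosLN ε c' (ZAN D dS A) Hs := by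
    intro Y A Hs c' hY hA hAf hAn hlaw hHf hZ hcz'
    have hZf : (ZAN D dS A).Finite := hHf.subset hZ
    have hL3 := hFIP PRL.idn hZIN K D Y hD hodd dS hdS (ε / 3) A (by positivity) hA hAf hAn hlaw
    have h3 : 3 * (ε / 3) = ε := by ring
    rw [h3] at hL3
    obtain ⟨f, hf⟩ := hAn
    obtain ⟨S, hS⟩ := sl_nonempty D.T
    have hpos : 0 < Hs.ncard := by
      rw [Set.ncard_pos hHf]
      exact ⟨_, hZ ⟨f, hf, S, hS, rfl⟩⟩
    have hfz : ∀ q ∈ ZAN D dS A, Irreducible q ∧ ((SelN q).ncard = 1 → FinOdd q) := by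
      rintro q ⟨f', hf', S', hS', rfl⟩
      have hS'' : S' ⊆ D.T := Finset.mem_powerset.1 (Finset.mem_filter.1 hS').1
      exact hFIN hSLN hIRR K D Y hD hY f' (hA hf') (dS S') (hdS S' hS'').1.1
    refine ⟨hZ, hHf, hpos, hcz', fun q hq => (hfz q hq).1, hL3, ?_⟩
    refine hL3.2.2.trans ?_
    have hsub : {q | q ∈ ZAN D dS A ∧ (SelN q).ncard = 1} ⊆
        {q | q ∈ ZAN D dS A ∧ (SelN q).ncard = 1 ∧ FinOdd q} :=
      fun q hq => ⟨hq.1, hq.2, (hfz q hq.1).2 hq.2⟩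
    exact_mod_cast Set.ncard_le_ncard hsub (hZf.subset fun q hq => hq.1)
  -- the equations with `a_1 = 0`
  have hzero : ∃ c2 : ℝ, 0 < c2 ∧ ∃ Y3 : ℕ, Tr0N D → ∀ Y : ℕ, Y3 ≤ Y → Y1 ≤ Y → Y2 ≤ Y →
      PosLN ε c2 (ZAN D dS (FamZSN D Y))
        {f | f ∈ (fun f : (𝓞 K)[X] => fk K f) '' AllN K (2 * E * Y) ∧ f.coeff 2 = 0} := by
    by_cases hTr : Tr0N D
    swap
    · exact ⟨1, one_pos, 0, fun h => absurd h hTr⟩
    obtain ⟨Y3, hY3⟩ := hA1 D hD hTr (by rw [hDT]; exact hA1T)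
    obtain ⟨Y4, hY4⟩ := hFZ D hD hTr
    set n : ℕ := dg K with hn
    set Q : ℝ := (∏ P ∈ D.T, (Nm P : ℝ) ^ 2) * ∏ P ∈ D.T', (Nm P : ℝ) ^ 2 with hQ
    have hQ0 : 0 < Q := by
      refine mul_pos (Finset.prod_pos fun P _ => ?_) (Finset.prod_pos fun P _ => ?_) <;>
      · have := nm_pos P
        positivity
    have hE0 : (0 : ℝ) < E := by exact_mod_cast hE1
    refine ⟨(2 * cz * Q * (CA * (2 * E) ^ (5 * n)))⁻¹, by positivity, max (max Y3 Y4) 1,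
      fun _ Y hY hYY1 hYY2 => ?_⟩
    have hYY3 : Y3 ≤ Y := (le_max_left _ _).trans ((le_max_left _ _).trans hY)
    have hYY4 : Y4 ≤ Y := (le_max_right _ _).trans ((le_max_left _ _).trans hY)
    have hY1' : 1 ≤ Y := (le_max_right _ _).trans hY
    have hYr : (1 : ℝ) ≤ Y := by exact_mod_cast hY1'
    obtain ⟨g1, g2, g3, g4, g5⟩ := hY1 Y hYY1
    obtain ⟨e1, e2, e3, e4⟩ := hY4 Y hYY4
    have e5 := hY3 Y hYY3
    have e6 := hY2 Y hYY2
    have hFS : FamSN D Y ⊆ FamN D Y := fun f hf => hf.1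
    have hZN : FamZN D Y ⊆ FamN D Y := fun f hf => hf.1
    have hZS : FamZSN D Y ⊆ FamZN D Y := fun f hf => hf.1
    have hZNf : (FamZN D Y).Finite := e1.subset hZN
    have hZSf : (FamZSN D Y).Finite := hZNf.subset hZS
    -- smooth ones
    have h2 : (FamZN D Y).ncard ≤ 2 * (FamZSN D Y).ncard := by
      have h5 : FamZN D Y ⊆ FamZSN D Y ∪ {f ∈ FamZN D Y | ¬ Smooth f} := by
        intro f hf
        by_cases h6 : Smooth f
        · exact Or.inl ⟨hf, h6⟩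
        · exact Or.inr ⟨hf, h6⟩
      have h7 : (FamZN D Y).ncard ≤ (FamZSN D Y ∪ {f ∈ FamZN D Y | ¬ Smooth f}).ncard :=
        Set.ncard_le_ncard h5 (hZSf.union (hZNf.subset fun f hf => hf.1))
      have h8 := Set.ncard_union_le (FamZSN D Y) {f ∈ FamZN D Y | ¬ Smooth f}
      omega
    have h2r : ((FamZN D Y).ncard : ℝ) ≤ 2 * (FamZSN D Y).ncard := by exact_mod_cast h2
    have hYp : (0 : ℝ) < (Y : ℝ) ^ (5 * n) := by positivity
    have hZpos : 0 < (FamZSN D Y).ncard := by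
      rcases Nat.eq_zero_or_pos (FamZSN D Y).ncard with h0 | h0
      · exfalso
        rw [h0, mul_zero] at h2
        have h3 : (FamZN D Y).ncard = 0 := Nat.le_zero.1 h2
        rw [h3, Nat.cast_zero, zero_mul, zero_mul, mul_zero] at e4
        linarith
      · exact h0
    have hZne : (FamZSN D Y).Nonempty := (Set.ncard_pos hZSf).1 hZpos
    -- the law
    have hTpos : 0 < (TrN D Y).ncard := by
      rw [Set.ncard_pos e2]
      refine ⟨0, ?_, fun P _ => P.asIdeal.zero_mem⟩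
      intro σ
      simp only [map_zero, norm_zero]
      positivity
    have hTr' : (0 : ℝ) < (TrN D Y).ncard := by exact_mod_cast hTpos
    have hlaw : ({f | f ∈ FamZSN D Y ∧ ¬ LawTN (ε / 3) D dS f}.ncard : ℝ) ≤
        ε / 3 * (FamZSN D Y).ncard := by
      have f1 := hSHA K D Y hD hY1' e1 e2 ε₁ dS hdS
      have f1r : ((TrN D Y).ncard : ℝ) * ({f | f ∈ FamZSN D Y ∧ ¬ LawTN ε₁ D dS f}.ncard : ℝ) ≤
          ({f | f ∈ FamSN D Y ∧ ¬ LawTN ε₁ D dS f}.ncard : ℝ) := by exact_mod_cast f1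
      have f2 : ((FamSN D Y).ncard : ℝ) ≤ (FamN D Y).ncard := by
        exact_mod_cast Set.ncard_le_ncard hFS e1
      have f3 : ({f | f ∈ FamZSN D Y ∧ ¬ LawTN (ε / 3) D dS f}.ncard : ℝ) ≤
          ({f | f ∈ FamZSN D Y ∧ ¬ LawTN ε₁ D dS f}.ncard : ℝ) := by
        have hsub : {f | f ∈ FamZSN D Y ∧ ¬ LawTN (ε / 3) D dS f} ⊆
            {f | f ∈ FamZSN D Y ∧ ¬ LawTN ε₁ D dS f} :=
          fun f hf => ⟨hf.1, fun h => hf.2 (lawTN_mono hε₁3 h)⟩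
        exact_mod_cast Set.ncard_le_ncard hsub (hZSf.subset fun q hq => hq.1)
      refine f3.trans ?_
      refine le_of_mul_le_mul_left ?_ hTr'
      calc ((TrN D Y).ncard : ℝ) * ({f | f ∈ FamZSN D Y ∧ ¬ LawTN ε₁ D dS f}.ncard : ℝ) ≤
            ε₁ * (FamSN D Y).ncard := f1r.trans e6
        _ ≤ ε₁ * (FamN D Y).ncard := mul_le_mul_of_nonneg_left f2 hε₁.le
        _ ≤ ε₁ * (cz * ((TrN D Y).ncard * (FamZN D Y).ncard)) :=
            mul_le_mul_of_nonneg_left e3 hε₁.le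
        _ ≤ ε₁ * (cz * ((TrN D Y).ncard * (2 * (FamZSN D Y).ncard))) := by gcongr
        _ = ε₁ * (2 * cz) * ((TrN D Y).ncard * (FamZSN D Y).ncard) := by ring
        _ ≤ ε / 3 * ((TrN D Y).ncard * (FamZSN D Y).ncard) := by gcongr
        _ = _ := by ring
    -- the density
    have hc2 : ∀ q : (𝓞 K)[X], (fk K q).coeff 2 = 0 ↔ q.coeff 2 = 0 := by
      intro q
      rw [coeff_map, map_eq_zero_iff _ (FaithfulSMul.algebraMap_injective (𝓞 K) K)]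
    have hHeq : {f | f ∈ (fun f : (𝓞 K)[X] => fk K f) '' AllN K (2 * E * Y) ∧
        f.coeff 2 = 0} = (fun f : (𝓞 K)[X] => fk K f) ''
          {f | f ∈ AllN K (2 * E * Y) ∧ f.coeff 2 = 0} := by
      ext q
      constructor
      · rintro ⟨⟨f, hf, rfl⟩, hq⟩
        exact ⟨f, ⟨hf, (hc2 f).1 hq⟩, rfl⟩
      · rintro ⟨f, ⟨hf, hf2⟩, rfl⟩
        exact ⟨⟨f, hf, rfl⟩, (hc2 f).2 hf2⟩
    have hHfin : {f | f ∈ (fun f : (𝓞 K)[X] => fk K f) '' AllN K (2 * E * Y) ∧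
        f.coeff 2 = 0}.Finite := (g3.image _).subset fun q hq => hq.1
    refine hstep Y _ _ _ hY1' (fun f hf => hf.1.1) hZSf hZne hlaw hHfin ?_ ?_
    · rintro q ⟨f, hf, S, hS, rfl⟩
      refine ⟨g4 ⟨f, ⟨hf.1.1, hf.2⟩, S, hS, rfl⟩, (hc2 _).2 ?_⟩
      rw [coeff_scaleRoots, hf.1.2.1, zero_mul]
    · rw [hHeq, Set.ncard_image_of_injective _ fkN_inj]
      have hZ1 := ((hZIN K D Y hD dS hdS).2 (FamZSN D Y) (fun f hf => hf.1.1) hZSf).2
      have hE1r : (1 : ℝ) ≤ E := by exact_mod_cast hE1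
      have h2EY : (1 : ℝ) ≤ 2 * E * Y := by nlinarith
      obtain ⟨-, -, -, -, k5, -⟩ := hAll (2 * E * Y) h2EY
      have k6 : ((FamZSN D Y).ncard : ℝ) ≤ (ZAN D dS (FamZSN D Y)).ncard := by
        rw [hZ1]
        exact_mod_cast Nat.le_mul_of_pos_left _ hSl
      refine le_trans ?_ k6
      rw [inv_mul_le_iff₀ (by positivity)]
      calc (({f | f ∈ AllN K (2 * E * Y) ∧ f.coeff 2 = 0}.ncard : ℕ) : ℝ) ≤
            CA * (2 * E * Y) ^ (5 * n) := k5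
        _ = CA * (2 * E) ^ (5 * n) * (Y : ℝ) ^ (5 * n) := by rw [mul_pow (2 * (E : ℝ))]; ring
        _ ≤ CA * (2 * E) ^ (5 * n) * (cz * ((FamZN D Y).ncard *
              (∏ P ∈ D.T, (Nm P : ℝ) ^ 2) * ∏ P ∈ D.T', (Nm P : ℝ) ^ 2)) := by
            gcongr
        _ = CA * (2 * E) ^ (5 * n) * (cz * ((FamZN D Y).ncard * Q)) := by rw [hQ]; ring
        _ ≤ CA * (2 * E) ^ (5 * n) * (cz * ((2 * (FamZSN D Y).ncard) * Q)) := by gcongr
        _ = _ := by ring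
  obtain ⟨c2, hc2, Y3, hY3⟩ := hzero
  have hmono : ∀ {c' c'' : ℝ} {Z Hs : Set K[X]}, c' ≤ c'' → PosLN ε c'' Z Hs →
      PosLN ε c' Z Hs := by
    intro c' c'' Z Hs h hP
    obtain ⟨p1, p2, p3, p4, p5⟩ := hP
    exact ⟨p1, p2, p3, le_trans (mul_le_mul_of_nonneg_right h (Nat.cast_nonneg _)) p4, p5⟩
  refine ⟨min c c2, lt_min hc hc2, max (max Y1 Y2) (max Y3 1), fun Y hY => ?_⟩
  have hYY1 : Y1 ≤ Y := (le_max_left _ _).trans ((le_max_left _ _).trans hY)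
  have hYY2 : Y2 ≤ Y := (le_max_right _ _).trans ((le_max_left _ _).trans hY)
  have hYY3 : Y3 ≤ Y := (le_max_left _ _).trans ((le_max_right _ _).trans hY)
  have hY1' : 1 ≤ Y := (le_max_right _ _).trans ((le_max_right _ _).trans hY)
  obtain ⟨g1, g2, g3, g4, g5⟩ := hY1 Y hYY1
  have e6 := hY2 Y hYY2
  have hFSf : (FamSN D Y).Finite := g1.subset fun f hf => hf.1
  have hle : ∀ ε' : ℝ, ε₁ ≤ ε' → ({f | f ∈ FamSN D Y ∧ ¬ LawTN ε' D dS f}.ncard : ℝ) ≤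
      ε' * (FamSN D Y).ncard := by
    intro ε' h
    have hsub : {f | f ∈ FamSN D Y ∧ ¬ LawTN ε' D dS f} ⊆
        {f | f ∈ FamSN D Y ∧ ¬ LawTN ε₁ D dS f} :=
      fun f hf => ⟨hf.1, fun h' => hf.2 (lawTN_mono h h')⟩
    have h5 : ({f | f ∈ FamSN D Y ∧ ¬ LawTN ε' D dS f}.ncard : ℝ) ≤
        ({f | f ∈ FamSN D Y ∧ ¬ LawTN ε₁ D dS f}.ncard : ℝ) := by
      exact_mod_cast Set.ncard_le_ncard hsub (hFSf.subset fun q hq => hq.1)
    exact h5.trans (e6.trans (mul_le_mul_of_nonneg_right h (Nat.cast_nonneg _)))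
  refine ⟨?_, hle ε (by linarith), fun hTr => ?_⟩
  · refine hmono (min_le_left _ _) (hstep Y _ _ c hY1' (fun f hf => hf.1) hFSf g2
      (hle (ε / 3) hε₁3) (g3.image _) g4 ?_)
    rw [Set.ncard_image_of_injective _ fkN_inj]
    exact g5
  · exact hmono (min_le_right _ _) (hY3 hTr Y hYY3 hYY1 hYY2)

end Pool.PNF
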