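import Pool.Agent.H72.PNF.S2
import Pool.Agent.H29.NF.A
import Pool.Agent.H79.PRK.S6
import Pool.Agent.H94.NF.S

/-!
# PNF: statements of the modules, part 6 (assembly), and the main statement

`K` is a number field.  The family `FamSN D Y` consists of the smooth cubic polynomials near
`x³ - Y³` with the local conditions given by `D`; `FamZN D Y` is its part with `a_1 = 0`, in a
smaller box.
-/

set_option autoImplicit false

namespace Pool.PNF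

open Polynomial Matrix NumberField IsDedekindDomain Pool.HYP Pool.TOW Pool.AVS Pool.T1 Pool.NF
  Pool.PRK

section Data

variable {K : Type} [Field K] [NumberField K]

open Classical in
/-- The conditions on one polynomial under which the law holds. -/
def GoodN (η : ℝ) (D : DatN K) (ϖ : HeightOneSpectrum (𝓞 K) → 𝓞 K) (j : ℕ) (f : (𝓞 K)[X]) :
    Prop :=
  ¬ PatN D ϖ (fun _ => 0) f ∧
    ({S : Finset {P : HeightOneSpectrum (𝓞 K) // P ∈ D.T} |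
      S ∈ PRL.sl Finset.univ ∅ j ∪ PRL.sl Finset.univ ∅ (j + 1) ∧
      ∃ m : {P : HeightOneSpectrum (𝓞 K) // P ∈ D.T} → Ty, m ≠ 0 ∧ m ∈ PRL.LS S ∧
        ¬ PRL.Bal η Finset.univ S m ∧ PatN D ϖ (ex D.T m) f}.ncard : ℝ) ≤
      η * ((2 * j + 1).choose j : ℝ)

/-- The law for the twists of one polynomial: the Selmer groups have `2^r` elements, `r` is even
for exactly one half of the twists, and the distribution of `r` is the law of Poonen and Rains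
up to `ε`. -/
def LawTN (ε : ℝ) (D : DatN K) (dS : Finset (HeightOneSpectrum (𝓞 K)) → 𝓞 K)
    (f : (𝓞 K)[X]) : Prop :=
  (∀ S ∈ Sl D.T, (SelN (fk K (f.scaleRoots (dS S)))).Finite ∧
    ∃ r : ℕ, (SelN (fk K (f.scaleRoots (dS S)))).ncard = 2 ^ r) ∧
  2 * {S | S ∈ Sl D.T ∧ ∃ r : ℕ, Even r ∧
    (SelN (fk K (f.scaleRoots (dS S)))).ncard = 2 ^ r}.ncard = (Sl D.T).card ∧
  ∀ B : ℕ, ∑ r ∈ Finset.range B,
    |({S | S ∈ Sl D.T ∧ (SelN (fk K (f.scaleRoots (dS S)))).ncard = 2 ^ r}.ncard : ℝ) /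
      (Sl D.T).card - PRL.PR r| ≤ ε

/-- The twists of the elements of `A` by the `dS S`, `S` a set of `j` or `j + 1` elements of
`T`, as polynomials over `K`. -/
def ZAN (D : DatN K) (dS : Finset (HeightOneSpectrum (𝓞 K)) → 𝓞 K) (A : Set (𝓞 K)[X]) :
    Set K[X] :=
  {q | ∃ f ∈ A, ∃ S ∈ Sl D.T, q = fk K (f.scaleRoots (dS S))}

/-- The data have trace zero. -/
def Tr0N (D : DatN K) : Prop :=
  (∀ P ∈ D.T, ((X - C (D.c P)) * D.γ P).coeff 2 ∈ P.asIdeal) ∧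
    ∀ P ∈ D.T', (D.ρ P).coeff 2 ∈ P.asIdeal

/-- The elements of the family with `a_1 = 0`, in a smaller box. -/
def FamZN (D : DatN K) (Y : ℕ) : Set (𝓞 K)[X] :=
  {f | f ∈ FamN D Y ∧ f.coeff 2 = 0 ∧ f.coeff 1 ∈ Bx K ((Y : ℝ) ^ 2 / 200) ∧
    f.coeff 0 + (Y : 𝓞 K) ^ 3 ∈ Bx K ((Y : ℝ) ^ 3 / 200)}

/-- The smooth elements of the family with `a_1 = 0`. -/
def FamZSN (D : DatN K) (Y : ℕ) : Set (𝓞 K)[X] := {f | f ∈ FamZN D Y ∧ Smooth f}

/-- The translations. -/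
def TrN (D : DatN K) (Y : ℕ) : Set (𝓞 K) :=
  {t | t ∈ Bx K ((Y : ℝ) / 1000) ∧ ∀ P : HeightOneSpectrum (𝓞 K), P ∈ D.T ∨ P ∈ D.T' →
    t ∈ P.asIdeal}

end Data

section Law

variable {K : Type} [Field K]

/-- The law of Poonen and Rains up to `ε` for a finite set `Z` of polynomials. -/
def LawZN (ε : ℝ) (Z : Set K[X]) : Prop :=
  (∀ B : ℕ, ∑ r ∈ Finset.range B,
    |({f | f ∈ Z ∧ (SelN f).ncard = 2 ^ r}.ncard : ℝ) / Z.ncard - PRL.PR r| ≤ ε) ∧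
  |({f | f ∈ Z ∧ ∃ r : ℕ, Even r ∧ (SelN f).ncard = 2 ^ r}.ncard : ℝ) / Z.ncard - 1 / 2| ≤ ε ∧
  (0.2097 - ε) * Z.ncard ≤ {f | f ∈ Z ∧ (SelN f).ncard = 1}.ncard

/-- The law for the subset `Z` of density at least `c` in `H`; the polynomials in `Z` are
irreducible, and for the proportion `0.2097 - ε` of them the curve `y² = f(x)` has finitely many
points. -/
def PosLN (ε c : ℝ) (Z H : Set K[X]) : Prop :=
  Z ⊆ H ∧ H.Finite ∧ 0 < H.ncard ∧ c * H.ncard ≤ Z.ncard ∧ (∀ f ∈ Z, Irreducible f) ∧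
    LawZN ε Z ∧ (0.2097 - ε) * Z.ncard ≤ {f | f ∈ Z ∧ (SelN f).ncard = 1 ∧ FinOdd f}.ncard

end Law

/-! ### The good polynomials -/

/-- GDFN: almost all polynomials of the family are good.  (As GDFK, H49/PRK/GDFK: first moment and
Markov's inequality; by BLC almost all elements of `LS S` are balanced; `#FamSN ≥ 3/4 #FamN` by DenN;
`FamN D Y` is finite for large `Y` by FamLN.) -/
def GDFNStmt : Prop :=
  ∀ (K : Type) [Field K] [NumberField K] (T' A : Finset (HeightOneSpectrum (𝓞 K))) (C : ℝ)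
    (b : ℕ), PRL.BLCStmt → AvN K T' C b → (∃ c : ℝ, FamLN K c) → DenN K A → A ⊆ T' →
    ∀ ε η : ℝ, 0 < ε → 0 < η → ∃ k₀ : ℕ, ∀ (D : DatN K) (j : ℕ), D.Ok → D.T' = T' →
    D.T.card = 2 * j + 1 → k₀ ≤ j → (∀ P ∈ D.T, b < Nm P ∧ 6 * D.T.card ≤ Nm P) →
    ∀ ϖ : HeightOneSpectrum (𝓞 K) → 𝓞 K, Uni D.T ϖ → ∃ Y₀ : ℕ, ∀ Y : ℕ, Y₀ ≤ Y →
      ({f | f ∈ FamSN D Y ∧ ¬ GoodN η D ϖ j f}.ncard : ℝ) ≤ ε * (FamSN D Y).ncard

/-- LAWN: the law for the twists of almost all polynomials (GDFN, MlgN, SLC and PAR, as LAWK). -/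
def LAWNStmt : Prop :=
  GDFNStmt → PRL.BLCStmt → PRL.SLCStmt → PRL.PARStmt →
  ∀ (K : Type) [Field K] [NumberField K] (T' A Ram : Finset (HeightOneSpectrum (𝓞 K))) (C : ℝ)
    (b : ℕ), AvN K T' C b → (∃ c : ℝ, FamLN K c) → DenN K A → A ⊆ T' → MlgN Ram → Ram ⊆ T' →
    ∀ ε : ℝ, 0 < ε → ∃ k₀ : ℕ, ∀ (D : DatN K) (j : ℕ), D.Ok → D.T' = T' →
    D.T.card = 2 * j + 1 → k₀ ≤ j → (∀ P ∈ D.T, b < Nm P ∧ 6 * D.T.card ≤ Nm P) →
    ∀ dS : Finset (HeightOneSpectrum (𝓞 K)) → 𝓞 K, TwsN D dS → ∃ Y₀ : ℕ, ∀ Y : ℕ, Y₀ ≤ Y →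
      ({f | f ∈ FamSN D Y ∧ ¬ LawTN ε D dS f}.ncard : ℝ) ≤ ε * (FamSN D Y).ncard

/-! ### The family -/

/-- ZINN: the pairs `(f, S)` are determined by the twist.  (For `P ∈ S` the twist is `x³` modulo
`P`, for `P ∈ T`, `P ∉ S` it is not, as `f` is squarefree modulo `P`; `S` determines `d`.) -/
def ZINNStmt : Prop :=
  ∀ (K : Type) [Field K] [NumberField K] (D : DatN K) (Y : ℕ), D.Ok →
    ∀ dS : Finset (HeightOneSpectrum (𝓞 K)) → 𝓞 K, TwsN D dS →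
    (∀ S ⊆ D.T, ∀ S' ⊆ D.T, ∀ f ∈ FamN D Y, ∀ f' ∈ FamN D Y,
      fk K (f.scaleRoots (dS S)) = fk K (f'.scaleRoots (dS S')) → S = S' ∧ f = f') ∧
    ∀ A : Set (𝓞 K)[X], A ⊆ FamN D Y → A.Finite → (ZAN D dS A).Finite ∧
      (ZAN D dS A).ncard = (Sl D.T).card * A.ncard

/-- FIPN: from the law for one polynomial to the law for a family (as FIPK). -/
def FIPNStmt : Prop :=
  PRL.IDNStmt → ZINNStmt →
  ∀ (K : Type) [Field K] [NumberField K] (D : DatN K) (Y : ℕ), D.Ok → Odd D.T.card →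
    ∀ dS : Finset (HeightOneSpectrum (𝓞 K)) → 𝓞 K, TwsN D dS →
    ∀ (ε : ℝ) (A : Set (𝓞 K)[X]), 0 < ε → A ⊆ FamN D Y → A.Finite → A.Nonempty →
    ({f | f ∈ A ∧ ¬ LawTN ε D dS f}.ncard : ℝ) ≤ ε * A.ncard → LawZN (3 * ε) (ZAN D dS A)

/-- DNZN: the family has positive density (FamLN, DenN, ALLN, TWFN, ZINN). -/
def DNZNStmt : Prop :=
  ZINNStmt → TWFNStmt → ALLNStmt →
  ∀ (K : Type) [Field K] [NumberField K] (A : Finset (HeightOneSpectrum (𝓞 K))) (D : DatN K),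
    (∃ c : ℝ, FamLN K c) → DenN K A → A ⊆ D.T' → D.Ok →
    ∀ dS : Finset (HeightOneSpectrum (𝓞 K)) → 𝓞 K, TwsN D dS →
    ∀ E : ℕ, 1 ≤ E → (∀ S ⊆ D.T, dS S ∈ Bx K (E : ℝ)) →
    ∃ c : ℝ, 0 < c ∧ ∃ Y₀ : ℕ, ∀ Y : ℕ, Y₀ ≤ Y →
      (FamN D Y).Finite ∧ (FamSN D Y).Nonempty ∧ (AllN K (2 * E * Y)).Finite ∧
      ZAN D dS (FamSN D Y) ⊆ (fun f : (𝓞 K)[X] => fk K f) '' AllN K (2 * E * Y) ∧
      c * (AllN K (2 * E * Y)).ncard ≤ (ZAN D dS (FamSN D Y)).ncard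

/-! ### The polynomials with `a_1 = 0` -/

/-- DEZN: most polynomials with `a_1 = 0` are smooth.  (`sv3_fib` of H94/NF/SV3 with `a₁ = 0`,
`z₁ = z₂ = 0`, `z₃ = -1`, `η = 1/200`; as DENN.) -/
def DEZNStmt : Prop :=
  ∀ (K : Type) [Field K] [NumberField K], ∃ A : Finset (HeightOneSpectrum (𝓞 K)),
    ∀ D : DatN K, D.Ok → Tr0N D → A ⊆ D.T' → ∃ Y₀ : ℕ, ∀ Y : ℕ, Y₀ ≤ Y →
      4 * {f ∈ FamZN D Y | ¬ Smooth f}.ncard ≤ (FamZN D Y).ncard

/-- FAZN: the size of the family with `a_1 = 0`.  (BXU, BXL or CFU, CFL; the first inequality is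
between `C^(6n) / N³` and the product of `Y^n / N` and `Y^(5n) / N²`, `N` the product of the norms of
the primes of `T` and `T'`.) -/
def FAZNStmt : Prop :=
  ∀ (K : Type) [Field K] [NumberField K], ∃ c : ℝ, 0 < c ∧
    ∀ D : DatN K, D.Ok → Tr0N D → ∃ Y₀ : ℕ, ∀ Y : ℕ, Y₀ ≤ Y →
      (FamN D Y).Finite ∧ (TrN D Y).Finite ∧
      ((FamN D Y).ncard : ℝ) ≤ c * ((TrN D Y).ncard * (FamZN D Y).ncard) ∧
      (Y : ℝ) ^ (5 * dg K) ≤
        c * ((FamZN D Y).ncard * (∏ P ∈ D.T, (Nm P : ℝ) ^ 2) * ∏ P ∈ D.T', (Nm P : ℝ) ^ 2)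

/-- SHAN: translation.  (`(f, t) ↦ f(x - t)` is injective on the polynomials with `a_1 = 0`, the
values are in `FamN D Y`; the Selmer groups of the twists do not change: `f(x - t)` twisted by `d` is
`f_d(x - d t)`; compare SHAK, H45/PRK/SHAK.) -/
def SHANStmt : Prop :=
  ∀ (K : Type) [Field K] [NumberField K] (D : DatN K) (Y : ℕ), D.Ok → 1 ≤ Y →
    (FamN D Y).Finite → (TrN D Y).Finite →
    ∀ (ε : ℝ) (dS : Finset (HeightOneSpectrum (𝓞 K)) → 𝓞 K), TwsN D dS →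
      (TrN D Y).ncard * {f | f ∈ FamZSN D Y ∧ ¬ LawTN ε D dS f}.ncard ≤
        {f | f ∈ FamSN D Y ∧ ¬ LawTN ε D dS f}.ncard

/-- EXZN: existence of data of trace zero.  (As EXDN and EXZK.  Over a finite field `k` there is an
element of trace zero in the cubic extension which is not in `k`: there are `q²` elements of trace
zero.) -/
def EXZNStmt : Prop :=
  ∀ (K : Type) [Field K] [NumberField K] (T' : Finset (HeightOneSpectrum (𝓞 K))),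
    (∀ P : HeightOneSpectrum (𝓞 K), (2 : 𝓞 K) ∈ P.asIdeal ∨ (3 : 𝓞 K) ∈ P.asIdeal → P ∈ T') →
    ∀ k b : ℕ, ∃ D : DatN K, D.Ok ∧ D.T' = T' ∧ D.T.card = k ∧ (∀ P ∈ D.T, b < Nm P) ∧ Tr0N D

/-- P6N: finitely many primes above two and three. -/
def P6NStmt : Prop :=
  ∀ (K : Type) [Field K] [NumberField K],
    {P : HeightOneSpectrum (𝓞 K) | (2 : 𝓞 K) ∈ P.asIdeal ∨ (3 : 𝓞 K) ∈ P.asIdeal}.Finite

/-- FINZN: a twist with trivial 2-Selmer group has a finite group of points, of odd order, and the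
twists are irreducible.  (SLN; `SelG` trivial is `SelK`; `finOdd_of` of H29/NF/MAINN.) -/
def FINZNStmt : Prop :=
  SLNStmt → IRRNStmt → ∀ (K : Type) [Field K] [NumberField K] (D : DatN K) (Y : ℕ), D.Ok → 1 ≤ Y →
    ∀ f ∈ FamN D Y, ∀ d : 𝓞 K, d ≠ 0 → Irreducible (fk K (f.scaleRoots d)) ∧
      ((SelN (fk K (f.scaleRoots d))).ncard = 1 → FinOdd (fk K (f.scaleRoots d)))

/-! ### The main statement -/

section Main

variable (K : Type) [Field K] [NumberField K]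

/-- The main statement for one number field. -/
def LawNF : Prop :=
  ∃ A : Finset (HeightOneSpectrum (𝓞 K)), ∀ T' : Finset (HeightOneSpectrum (𝓞 K)), A ⊆ T' →
    ∀ ε : ℝ, 0 < ε → ∃ k₀ : ℕ, ∀ k : ℕ, Odd k → k₀ ≤ k → ∃ b : ℕ,
    (∃ D : DatN K, D.Ok ∧ D.T' = T' ∧ D.T.card = k ∧ (∀ P ∈ D.T, b < Nm P) ∧ Tr0N D) ∧
    ∀ D : DatN K, D.Ok → D.T' = T' → D.T.card = k → (∀ P ∈ D.T, b < Nm P) →
    (∃ dS : Finset (HeightOneSpectrum (𝓞 K)) → 𝓞 K, TwsN D dS) ∧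
    ∀ dS : Finset (HeightOneSpectrum (𝓞 K)) → 𝓞 K, TwsN D dS →
    ∀ E : ℕ, 1 ≤ E → (∀ S ⊆ D.T, dS S ∈ Bx K (E : ℝ)) →
    ∃ c : ℝ, 0 < c ∧ ∃ Y₀ : ℕ, ∀ Y : ℕ, Y₀ ≤ Y →
      PosLN ε c (ZAN D dS (FamSN D Y)) ((fun f : (𝓞 K)[X] => fk K f) '' AllN K (2 * E * Y)) ∧
      ({f | f ∈ FamSN D Y ∧ ¬ LawTN ε D dS f}.ncard : ℝ) ≤ ε * (FamSN D Y).ncard ∧
      (Tr0N D → PosLN ε c (ZAN D dS (FamZSN D Y))
        {f | f ∈ (fun f : (𝓞 K)[X] => fk K f) '' AllN K (2 * E * Y) ∧ f.coeff 2 = 0})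

end Main

/-- MANN: the main statement, from its parts. -/
def MANNStmt : Prop :=
  LAWNStmt → GDFNStmt → FIPNStmt → DNZNStmt → ZINNStmt → DEZNStmt → FAZNStmt → SHANStmt →
  EXZNStmt → P6NStmt → FINZNStmt → SLNStmt → IRRNStmt → TWFNStmt → ALLNStmt → TWSNStmt →
  ∀ (K : Type) [Field K] [NumberField K], (∃ A, DenN K A) → (∃ c : ℝ, FamLN K c) →
    (∃ Ram : Finset (HeightOneSpectrum (𝓞 K)), MlgN Ram) →
    (∀ T' : Finset (HeightOneSpectrum (𝓞 K)), ∃ (C : ℝ) (b : ℕ), AvN K T' C b) → LawNF K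

/-- For every `r` a positive proportion of all elliptic curves over `K`, ordered by the size of the
coefficients, have a 2-Selmer group with `2^r` elements (and no point of order two); also if
`a_1 = 0`. -/
def AllRN (K : Type) [Field K] [NumberField K] : Prop :=
  ∀ r : ℕ, ∃ δ : ℝ, 0 < δ ∧ ∃ Y₀ : ℝ, ∀ Y : ℝ, Y₀ ≤ Y → (AllN K Y).Finite ∧
    0 < {f ∈ AllN K Y | f.coeff 2 = 0}.ncard ∧
    δ * (AllN K Y).ncard ≤
      {f ∈ AllN K Y | Irreducible (fk K f) ∧ (SelN (fk K f)).Finite ∧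
        (SelN (fk K f)).ncard = 2 ^ r}.ncard ∧
    δ * {f ∈ AllN K Y | f.coeff 2 = 0}.ncard ≤
      {f ∈ AllN K Y | f.coeff 2 = 0 ∧ Irreducible (fk K f) ∧ (SelN (fk K f)).Finite ∧
        (SelN (fk K f)).ncard = 2 ^ r}.ncard

/-- RNKN: all ranks occur in positive proportion.  (`LawNF` for `ε < PR r / 2`; for real `Y` take the
integer part of `Y / (2 E)` and compare the sizes of `AllN` with ALLN, as in POSN, H29/NF/POSN.) -/
def RNKNStmt : Prop :=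
  ALLNStmt → ∀ (K : Type) [Field K] [NumberField K], LawNF K → AllRN K

/-- The main theorem. -/
def MainPNF : Prop := ∀ (K : Type) [Field K] [NumberField K], LawNF K ∧ AllRN K

end Pool.PNF
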